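import Pool.Graph.R_pool_sql_team_seeded_620a6dc7.H948_Strat.Defs
import Pool.Graph.R_pool_sql_team_seeded_620a6dc7.H948_Strat.Stmts
import Pool.Graph.R_pool_sql_team_seeded_620a6dc7.H948_Strat.Base
import Pool.Graph.R_pool_sql_team_seeded_620a6dc7.H948_Strat.Agf
import Pool.Graph.R_pool_sql_team_seeded_620a6dc7.H948_Strat.Balmer
import Pool.Graph.R_pool_sql_team_seeded_620a6dc7.H948_Strat.Bous
import Pool.Graph.R_pool_sql_team_seeded_620a6dc7.H948_Strat.Core
import Pool.Graph.R_pool_sql_team_seeded_620a6dc7.H948_Strat.Fl
import Pool.Graph.R_pool_sql_team_seeded_620a6dc7.H948_Strat.Fl05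
import Pool.Graph.R_pool_sql_team_seeded_620a6dc7.H948_Strat.Flz
import Pool.Graph.R_pool_sql_team_seeded_620a6dc7.H948_Strat.H
import Pool.Graph.R_pool_sql_team_seeded_620a6dc7.H948_Strat.Ho
import Pool.Graph.R_pool_sql_team_seeded_620a6dc7.H948_Strat.HoTensor
import Pool.Graph.R_pool_sql_team_seeded_620a6dc7.H948_Strat.Idem
import Pool.Graph.R_pool_sql_team_seeded_620a6dc7.H948_Strat.IhomLoc
import Pool.Graph.R_pool_sql_team_seeded_620a6dc7.H948_Strat.Local
import Pool.Graph.R_pool_sql_team_seeded_620a6dc7.H948_Strat.Main
import Pool.Graph.R_pool_sql_team_seeded_620a6dc7.H948_Strat.Nil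
import Pool.Graph.R_pool_sql_team_seeded_620a6dc7.H948_Strat.Prods
import Pool.Graph.R_pool_sql_team_seeded_620a6dc7.H948_Strat.Seq
import Pool.Graph.R_pool_sql_team_seeded_620a6dc7.H948_Strat.Small
import Pool.Graph.R_pool_sql_team_seeded_620a6dc7.H948_Strat.Tree
import Pool.Agent.H380.ST.Tower

/-!
# MP_320227_al, Q1: stratification implies costratification

Let `C` be a rigidly-compactly generated tensor triangulated category whose Balmer spectrum is weakly
noetherian. If `C` is stratified, then `C` is costratified.
-/

open CategoryTheory Limits MonoidalCategory Pretriangulated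

universe v u

namespace Pool.Agent.Results.MP_320227_al.StratifiedCostratified

open H948

/-- A stratified rigidly-compactly generated tensor triangulated category with weakly noetherian spectrum is
costratified. -/
theorem result (C : Type u) [Category.{v} C] [Preadditive C] [HasZeroObject C] [HasShift C ℤ]
    [∀ n : ℤ, (shiftFunctor C n).Additive] [Pretriangulated C] [IsTriangulated C]
    [MonoidalCategory C] [SymmetricCategory C] [MonoidalClosed C] [HasCoproducts.{v} C]
    [TensorExact C] (hC : RigCptGen C) (hw : WeaklyNoetherian C) (hs : Stratified C) :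
    Costratified C := by
  have hgen : CptGen C := hC.gen
  have hct : S_cptTri C := cptTri
  have hco : S_coprodTri C := coprodTri
  have ho : HoAPI C := hoAPI C
  have hb : S_bous C := bous hco ho
  have hflz : S_flz C := flz
  have hsm : S_small C := small hgen hb hflz
  have hall : S_all C := all_of hb hgen
  have hpr : HasProducts.{v} C := prods hgen hco ho hb
  have hR : RPkg C :=
    { small := hsm
      gen := gen_of hgen
      all := hall
      prods := hpr
      unit := hC.unit
      rigid := hC.rigid }
  have hz1 : S_z1 C := z1 hsm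
  have htree : S_tree C := tree ho hsm hco hz1
  have htower : S_tower C := H380.ST.tower hR hz1 hct
  have hht : S_hoTensor C := hoTensor
  have hfl : S_fl C := fl hall
  have h05 : S_fl05 C := fl05 hR hfl
  have hloc : S_local C := localAPI hR
  have hH : S_H C := propH hR hflz hloc hct
  have hseq : S_seq C := seq hR agf hH hloc
  have hnil : S_nil C := nil hR ho hht h05 hloc
  have hcore : S_core C := core hR htree htower hseq hnil hloc
  have hfin : S_finLocEx C := finLocEx hR hb
  have hih : S_ihomLoc C := ihomLoc hR
  have hcpt : S_cptIn C := cptIn_thick hR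
  have hidem : S_idem C := idem hR hcpt
  have hgorth : S_gorth C := gorth hR hct hidem (prime hR) (cover hR)
  exact main hcore hloc hidem hgorth hfin hih hcpt hw hs

end Pool.Agent.Results.MP_320227_al.StratifiedCostratified
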